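import Pool.Agent.Lib.MP_2add11_gt.IG.Sat
import Pool.Agent.Lib.MP_2add11_gt.IG.Real
import Pool.Agent.Lib.MP_2add11_gt.IG.FP

/-!
For a free product `G` of finitely many finite groups whose elements have order at most six, every
element of `Wh(G)` has a positive multiple in `Wh*(G)`.
-/

namespace Pool.Agent.Lib.MP_2add11_gt.Old.FiniteIndex

open Pool.Agent.Lib.MP_2add11_gt

theorem result (K : Type) [Finite K] (G : K → Type) [∀ i, Group (G i)] [∀ i, Finite (G i)]
    (h : ∀ (i : K) (g : G i), orderOf g ≤ 6) (τ : Wh (Monoid.CoprodI G)) :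
    ∃ k : ℕ, 0 < k ∧ k • τ ∈ WhStar (Monoid.CoprodI G) := by
  obtain ⟨k, hk, h1⟩ := IG.root_coprodI h τ
  have := IG.fp_coprodI G
  have := IG.mem_whStarI h1.2
  rw [neg_neg] at this
  exact ⟨k, hk, this⟩

end Pool.Agent.Lib.MP_2add11_gt.Old.FiniteIndex
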