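import Pool.Agent.Lib.MP_2add11_gt.FG.Conv

/-!
For a finite group `G` the set `Wh*(G)` of torsions of deformation retract pairs of relative
dimension at most two is a subgroup of `Wh(G)`.
-/

namespace Pool.Agent.Lib.MP_2add11_gt.Old.FiniteSubgroup

open Pool.Agent.Lib.MP_2add11_gt

theorem result (G : Type) [Group G] [Finite G] :
    ∃ H : AddSubgroup (Wh G), (H : Set (Wh G)) = WhStar G := by
  refine ⟨{ toAddSubmonoid := FG.Alg (FG.whInv G), neg_mem' := FG.Alg.neg _ }, Set.ext fun x =>
    ⟨fun h => ?_, fun h => ?_⟩⟩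
  · have := FG.mem_whStar (FG.Alg.neg _ h)
    rwa [neg_neg] at this
  · have := FG.Alg.neg _ (FG.neg_mem_alg h)
    rwa [neg_neg] at this

end Pool.Agent.Lib.MP_2add11_gt.Old.FiniteSubgroup
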