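import Pool.Agent.Lib.MP_2add11_gt.Torsion

/-!
A deformation retract pair of relative dimension two with nonzero Whitehead torsion:
`L` is the presentation complex of `⟨t | t^5⟩` and `K` that of
`⟨t, y | t^5, (t y²)² t (t y²)⁻² y⁻¹⟩`.
-/

namespace Pool.Agent.Lib.MP_2add11_gt.Old.NonzeroTorsion

open Pool.Agent.Lib.MP_2add11_gt

theorem result : ∃ τ ∈ WhStar (Multiplicative (ZMod 5)), ¬ IsOfFinAddOrder τ := by
  refine ⟨-Wh.cls uM, ⟨thePair, thePair_torsion⟩, fun h => lam2_uM ?_⟩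
  obtain ⟨n, hn, e⟩ := isOfFinAddOrder_iff_nsmul_eq_zero.1 h
  have := congrArg lam2 e
  rw [map_nsmul, map_zero, map_neg, smul_neg, neg_eq_zero, nsmul_eq_mul] at this
  exact (mul_eq_zero.1 this).resolve_left (by exact_mod_cast hn.ne')

end Pool.Agent.Lib.MP_2add11_gt.Old.NonzeroTorsion
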