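import Pool.Agent.Lib.MP_2add11_gt.IG.WrVf

/-!
`Wh*(G)` is a subgroup of `Wh(G)` for every retract `G` of a subgroup of finite index in a product
of two finitely generated virtually free groups.
-/

namespace Pool.Agent.Lib.MP_2add11_gt.Old.VirtuallyFree

open Pool.Agent.Lib.MP_2add11_gt

theorem result (P P' G : Type) [Group P] [Group P'] [Group G] [Group.FG P] [Group.FG P']
    (F : Subgroup P) [F.FiniteIndex] [IsFreeGroup F] (F' : Subgroup P') [F'.FiniteIndex]
    [IsFreeGroup F'] (N : Subgroup (P × P')) [N.FiniteIndex] (f : G →* N) (g : N →* G)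
    (h : ∀ x, g (f x) = x) : ∃ H : AddSubgroup (Wh G), (H : Set (Wh G)) = WhStar G := by
  have := IG.fp_virtFree F
  have := IG.fp_virtFree F'
  have := IG.fp_prod P P'
  have := IG.fp_down N
  have := IG.fp_retract f g h
  exact (((IG.NegF.vf_prod_vf P P' F F').negCl.subgroup N).retract f g h).whStar

end Pool.Agent.Lib.MP_2add11_gt.Old.VirtuallyFree
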